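import Mathlib
import Pool.Agent.H52.MG.Targets

set_option autoImplicit false

noncomputable section

open Module MvPolynomial Cardinal

namespace Pool.Agent.H75.MG

open Pool.Agent.H52.MG

theorem infinite_basis {t : Set ℝ} (ht : IsTranscendenceBasis ℚ ((↑) : t → ℝ)) : Infinite t := by
  by_contra hfin
  rw [not_infinite_iff_finite] at hfin
  have h1 := ht.isAlgebraic
  have h2 : #(Algebra.adjoin ℚ (Set.range ((↑) : t → ℝ))) ≤ ℵ₀ := by
    rw [← Cardinal.mk_congr ht.1.aevalEquiv.toEquiv]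
    refine (MvPolynomial.cardinalMk_le_max).trans ?_
    simp [Cardinal.mk_le_aleph0]
  have h3 : #ℝ ≤ max #(Algebra.adjoin ℚ (Set.range ((↑) : t → ℝ))) ℵ₀ :=
    Algebra.IsAlgebraic.cardinalMk_le_max _ _
  have h4 : #ℝ ≤ ℵ₀ := h3.trans (max_le h2 le_rfl)
  exact absurd h4 (not_le.2 (by rw [Cardinal.mk_real]; exact Cardinal.aleph0_lt_continuum))

theorem exg : T_EXG := by
  intro V _
  obtain ⟨t, ht⟩ := exists_isTranscendenceBasis ℚ ℝ
  have hinf := infinite_basis ht
  obtain ⟨n, ⟨e⟩⟩ := Finite.exists_equiv_fin (V × Fin 3)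
  let f : V × Fin 3 → t := fun x => Infinite.natEmbedding t (e x)
  have hf : Function.Injective f := fun a b hab => by
    have := (Infinite.natEmbedding t).injective hab
    exact e.injective (Fin.ext this)
  refine ⟨fun v i => (f (v, i) : ℝ), ?_⟩
  exact ht.1.comp f hf

end Pool.Agent.H75.MG
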