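import Mathlib
import Pool.Agent.H52.MG.Targets

set_option autoImplicit false

noncomputable section

open Module

namespace Pool.Agent.H75.MG

open Pool.Agent.H52.MG

/-- vectors over a subfield which are independent over it are independent over `ℝ` -/
theorem linInd_ext (F : IntermediateField ℚ ℝ) {n : ℕ} {κ : Type} [Fintype κ] [DecidableEq κ]
    (b : Fin n → κ → F) (hb : LinearIndependent F b) :
    LinearIndependent ℝ (fun i j => ((b i j : F) : ℝ)) := by
  let φ : (Fin n → F) →ₗ[F] (κ → F) := Fintype.linearCombination F b
  have hφ : LinearMap.ker φ = ⊥ := by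
    rw [LinearMap.ker_eq_bot']
    intro m hm
    funext i
    exact Fintype.linearIndependent_iff.1 hb m hm i
  obtain ⟨ψ, hψ⟩ := LinearMap.exists_leftInverse_of_injective φ hφ
  have hC : ∀ i k, ∑ j, ψ (Pi.single j 1) i * b k j = if k = i then 1 else 0 := by
    intro i k
    have h1 : ψ (φ (Pi.single k 1)) = Pi.single k 1 := LinearMap.congr_fun hψ _
    have h2 : φ (Pi.single k 1) = b k := by
      change Fintype.linearCombination F b (Pi.single k 1) = _
      rw [Fintype.linearCombination_apply_single, one_smul]
    rw [h2] at h1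
    have h3 : b k = ∑ j, b k j • Pi.single j (1 : F) := by
      funext l
      simp [Finset.sum_apply, Pi.single_apply]
    rw [h3, map_sum] at h1
    have h4 := congrFun h1 i
    simp only [map_smul, Finset.sum_apply, Pi.smul_apply, smul_eq_mul, Pi.single_apply] at h4
    rw [← Finset.sum_congr rfl fun j _ => mul_comm (b k j) (ψ (Pi.single j 1) i)]
    rw [h4]
    simp only [eq_comm]
  rw [Fintype.linearIndependent_iff]
  intro c hc i
  have h5 : ∀ j, ∑ k, c k * ((b k j : F) : ℝ) = 0 := by
    intro j
    have := congrFun hc j
    simpa [Finset.sum_apply] using this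
  have hC' : ∀ k, ∑ j, ((ψ (Pi.single j 1) i : F) : ℝ) * ((b k j : F) : ℝ) =
      if k = i then 1 else 0 := by
    intro k
    have := congrArg (fun r : F => (r : ℝ)) (hC i k)
    push_cast at this
    rw [this]
    split_ifs <;> simp
  calc c i = ∑ k, c k * (if k = i then 1 else 0) := by simp
    _ = ∑ k, c k * ∑ j, ((ψ (Pi.single j 1) i : F) : ℝ) * ((b k j : F) : ℝ) := by
      simp only [hC']
    _ = ∑ j, ((ψ (Pi.single j 1) i : F) : ℝ) * ∑ k, c k * ((b k j : F) : ℝ) := by
      simp only [Finset.mul_sum]
      rw [Finset.sum_comm]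
      exact Finset.sum_congr rfl fun j _ => Finset.sum_congr rfl fun k _ => by ring
    _ = 0 := by simp [h5]

theorem rk : T_RK := by
  intro F ι κ _ _ M hM
  classical
  let MF : Matrix ι κ F := fun i j => ⟨M i j, hM i j⟩
  let b0 := Module.finBasis F (LinearMap.ker MF.mulVecLin)
  refine ⟨_, fun i j => (((b0 i : LinearMap.ker MF.mulVecLin) : κ → F) j : ℝ),
    fun i j => SetLike.coe_mem _, ?_, ?_⟩
  · refine linInd_ext F (fun i => ((b0 i : LinearMap.ker MF.mulVecLin) : κ → F)) ?_
    exact b0.linearIndependent.map' (LinearMap.ker MF.mulVecLin).subtype (Submodule.ker_subtype _)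
  · apply le_antisymm
    · rw [Submodule.span_le]
      rintro _ ⟨i, rfl⟩
      rw [SetLike.mem_coe, LinearMap.mem_ker]
      have h1 : MF.mulVecLin (b0 i) = 0 := (b0 i).2
      funext k
      have h2 := congrFun h1 k
      have h3 := congrArg (fun r : F => (r : ℝ)) h2
      simp only [Matrix.mulVecLin_apply, Matrix.mulVec, dotProduct, Pi.zero_apply] at h3 ⊢
      push_cast at h3
      exact h3
    · intro x hx
      rw [LinearMap.mem_ker] at hx
      let β := Module.Basis.ofVectorSpace F ℝ
      let s : Finset (Module.Basis.ofVectorSpaceIndex F ℝ) :=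
        Finset.univ.biUnion fun j => (β.repr (x j)).support
      have hxj : ∀ j, x j = ∑ l ∈ s, ((β.repr (x j) l : F) : ℝ) * β l := by
        intro j
        conv_lhs => rw [← β.linearCombination_repr (x j)]
        rw [Finsupp.linearCombination_apply, Finsupp.sum_of_support_subset (s := s)]
        · rfl
        · exact Finset.subset_biUnion_of_mem (fun j => (β.repr (x j)).support) (Finset.mem_univ j)
        · simp
      have ha : ∀ l, (fun j => β.repr (x j) l) ∈ LinearMap.ker MF.mulVecLin := by
        intro l
        rw [LinearMap.mem_ker]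
        funext k
        have h1 : ∑ j, MF k j • x j = 0 := congrFun hx k
        have h2 := congrArg (fun r => β.repr r l) h1
        simp only [map_sum, map_smul, map_zero, Finsupp.coe_zero, Pi.zero_apply,
          Finsupp.finsetSum_apply, Finsupp.smul_apply, smul_eq_mul] at h2
        simpa [Matrix.mulVecLin_apply, Matrix.mulVec, dotProduct] using h2
      have hx2 : x = ∑ l ∈ s, (β l : ℝ) • fun j => ((β.repr (x j) l : F) : ℝ) := by
        funext j
        rw [Finset.sum_apply, hxj j]
        exact Finset.sum_congr rfl fun l _ => by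
          rw [Pi.smul_apply, smul_eq_mul, mul_comm]
      rw [hx2]
      refine Submodule.sum_mem _ fun l _ => Submodule.smul_mem _ _ ?_
      have h3 := b0.sum_repr ⟨_, ha l⟩
      have h4 : (fun j => ((β.repr (x j) l : F) : ℝ)) =
          ∑ i, ((b0.repr ⟨_, ha l⟩ i : F) : ℝ) •
            fun j => (((b0 i : LinearMap.ker MF.mulVecLin) : κ → F) j : ℝ) := by
        funext j
        have h5 := congrArg (fun v : LinearMap.ker MF.mulVecLin => (v : κ → F) j) h3
        simp only [Submodule.coe_sum, Submodule.coe_smul, Finset.sum_apply, Pi.smul_apply,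
          smul_eq_mul] at h5
        have h6 := congrArg (fun r : F => (r : ℝ)) h5
        push_cast at h6
        rw [Finset.sum_apply]
        simp only [Pi.smul_apply, smul_eq_mul]
        exact h6.symm
      rw [h4]
      exact Submodule.sum_mem _ fun i _ => Submodule.smul_mem _ _ (Submodule.subset_span ⟨i, rfl⟩)

end Pool.Agent.H75.MG
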