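import Mathlib
import Pool.Agent.H52.MG.Targets
import Pool.Agent.H52.MG.Basic

set_option autoImplicit false

noncomputable section

open Module
open scoped Matrix

namespace Pool.Agent.H75.MG

open Pool.Agent.H52.MG

/-- an antisymmetric matrix is a cross product -/
theorem antisymm_cross (C : Matrix (Fin 3) (Fin 3) ℝ) (h : Cᵀ = -C) :
    ∃ ν : Vec, ∀ z : Vec, C *ᵥ z = ν ⨯₃ z := by
  have hc : ∀ i j, C j i = - C i j := fun i j => congrFun (congrFun h i) j
  have h00 := hc 0 0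
  have h11 := hc 1 1
  have h22 := hc 2 2
  have h10 := hc 0 1
  have h20 := hc 0 2
  have h21 := hc 1 2
  refine ⟨![C 2 1, C 0 2, C 1 0], fun z => ?_⟩
  apply vec_ext <;> simp only [cross_eq, Matrix.mulVec, dot3, Matrix.cons_val]
  · linear_combination (1/2 * z 0) * h00 + z 1 * h10
  · linear_combination (1/2 * z 1) * h11 + z 2 * h21
  · linear_combination (1/2 * z 2) * h22 + z 0 * h20

theorem mulVec_inj {L : Matrix (Fin 3) (Fin 3) ℝ} (hL : Orth L) {u w : Vec}
    (h : L *ᵥ u = L *ᵥ w) : u = w := by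
  have h1 : Lᵀ *ᵥ (L *ᵥ u) = Lᵀ *ᵥ (L *ᵥ w) := by rw [h]
  rwa [Matrix.mulVec_mulVec, Matrix.mulVec_mulVec, show Lᵀ * L = 1 from hL, Matrix.one_mulVec,
    Matrix.one_mulVec] at h1

/-- orthogonal maps preserve non collinearity -/
theorem orth_cross {L : Matrix (Fin 3) (Fin 3) ℝ} (hL : Orth L) {u w : Vec}
    (h : u ⨯₃ w ≠ 0) : (L *ᵥ u) ⨯₃ (L *ᵥ w) ≠ 0 := by
  intro h0
  have hw : L *ᵥ w ≠ 0 := by
    intro hw
    have : w = 0 := mulVec_inj hL (by rw [hw, Matrix.mulVec_zero])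
    rw [this] at h
    simp at h
  obtain ⟨r, hr⟩ := cross_zero _ _ hw h0
  rw [← Matrix.mulVec_smul] at hr
  have := mulVec_inj hL hr
  rw [this] at h
  simp at h

section

variable {V : Type} [Fintype V]

theorem three_of {X : Set V} {v : V} (hv : v ∈ X) (hX : 4 ≤ X.ncard) :
    ∃ a b e, a ∈ X ∧ b ∈ X ∧ e ∈ X ∧ a ≠ v ∧ b ≠ v ∧ e ≠ v ∧ a ≠ b ∧ a ≠ e ∧ b ≠ e := by
  have h1 : 2 < (X \ {v}).ncard := by
    have := Set.ncard_sdiff_singleton_add_one hv (Set.toFinite X)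
    omega
  rw [Set.two_lt_ncard_iff (Set.toFinite _)] at h1
  obtain ⟨a, b, e, ha, hb, he, h1, h2, h3⟩ := h1
  exact ⟨a, b, e, ha.1, hb.1, he.1, ha.2, hb.2, he.2, h1, h2, h3⟩

/-- the value of the derivation at the removed vertex -/
theorem key (hGP : T_GP) (D : Derivation ℚ ℝ ℝ) (p q : V → Vec) (hp : Gen p) (v : V) (w : Vec)
    (hD0 : ∀ x, x ≠ v → ∀ i, D (p x i) = 0) (hDv : ∀ i, D (p v i) = w i) (S : Scr)
    (hS : ∀ x, x ≠ v → ∀ i, D (q x i) = ev S (q x) i) (X : Set V) (hv : v ∈ X)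
    (hX : 4 ≤ X.ncard) (L : Matrix (Fin 3) (Fin 3) ℝ) (t : Vec) (hL : Orth L)
    (hq : ∀ x ∈ X, q x = L *ᵥ p x + t) :
    (fun i => D (q v i)) = ev S (q v) + L *ᵥ w := by
  let DL : Matrix (Fin 3) (Fin 3) ℝ := fun i j => D (L i j)
  let Dt : Vec := fun i => D (t i)
  let Om : Matrix (Fin 3) (Fin 3) ℝ := !![0, -S.1 2, S.1 1; S.1 2, 0, -S.1 0; -S.1 1, S.1 0, 0]
  have hOm : ∀ z : Vec, Om *ᵥ z = S.1 ⨯₃ z := by
    intro z
    apply vec_ext <;> simp only [cross_eq, Matrix.mulVec, dot3, Matrix.cons_val, Om,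
      Matrix.of_apply] <;> ring
  have hOmT : Omᵀ = -Om := by
    ext i j
    fin_cases i <;> fin_cases j <;> simp [Om]
  have hDq : ∀ x ∈ X, ∀ i, D (q x i) = (DL *ᵥ p x) i + (L *ᵥ fun j => D (p x j)) i + Dt i := by
    intro x hx i
    rw [hq x hx]
    simp only [Pi.add_apply, map_add, Matrix.mulVec, dot3, Derivation.leibniz, smul_eq_mul, DL, Dt]
    ring
  have hDL : Lᵀ * DL + DLᵀ * L = 0 := by
    ext i j
    have h1 : (Lᵀ * L) i j = (1 : Matrix (Fin 3) (Fin 3) ℝ) i j := by rw [show Lᵀ * L = 1 from hL]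
    have h2 := congrArg D h1
    have h3 : D ((1 : Matrix (Fin 3) (Fin 3) ℝ) i j) = 0 := by
      rw [Matrix.one_apply]
      split_ifs
      · exact D.map_one_eq_zero
      · exact map_zero D
    rw [h3] at h2
    simp only [Matrix.mul_apply, Matrix.transpose_apply, Fin.sum_univ_three, map_add,
      Derivation.leibniz, smul_eq_mul] at h2
    simp only [Matrix.add_apply, Matrix.mul_apply, Matrix.transpose_apply, Fin.sum_univ_three, DL,
      Matrix.zero_apply]
    linarith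
  have hC : (Lᵀ * (DL - Om * L))ᵀ = -(Lᵀ * (DL - Om * L)) := by
    have e1 : (Lᵀ * (DL - Om * L))ᵀ = DLᵀ * L + Lᵀ * Om * L := by
      rw [Matrix.transpose_mul, Matrix.transpose_transpose, Matrix.transpose_sub,
        Matrix.transpose_mul, hOmT, Matrix.sub_mul, Matrix.mul_neg, Matrix.neg_mul, sub_neg_eq_add]
    have e2 : DLᵀ * L = -(Lᵀ * DL) := by
      rw [eq_neg_iff_add_eq_zero, add_comm]
      exact hDL
    rw [e1, e2, Matrix.mul_sub, ← Matrix.mul_assoc]
    abel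
  obtain ⟨ν, hν⟩ := antisymm_cross _ hC
  let c0 : Vec := Dt - S.2 - S.1 ⨯₃ t
  let f : Vec → Vec := fun z => DL *ᵥ z + Dt - ev S (L *ᵥ z + t)
  have hf : ∀ z, Lᵀ *ᵥ f z = ev (ν, Lᵀ *ᵥ c0) z := by
    intro z
    have h1 : f z = (DL - Om * L) *ᵥ z + c0 := by
      simp only [f, c0, ev, Matrix.sub_mulVec, ← Matrix.mulVec_mulVec, hOm, map_add]
      abel
    rw [h1, Matrix.mulVec_add, Matrix.mulVec_mulVec, hν, ev]
    exact add_comm _ _
  obtain ⟨a, b, e, haX, hbX, heX, hav, hbv, hev, hab, hae, hbe⟩ := three_of hv hX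
  have hfx : ∀ x ∈ X, x ≠ v → f (p x) = 0 := by
    intro x hx hxv
    have h1 : (fun j => D (p x j)) = 0 := by
      funext j
      exact hD0 x hxv j
    have h2 : DL *ᵥ p x + Dt = ev S (q x) := by
      funext i
      have := hDq x hx i
      rw [h1, Matrix.mulVec_zero, hS x hxv i] at this
      simp only [Pi.zero_apply, add_zero] at this
      exact this.symm
    simp only [f]
    rw [h2, ← hq x hx, sub_self]
  have hR : ((ν, Lᵀ *ᵥ c0) : Scr) = 0 := by
    refine scr_three _ (p a) (p b) (p e) ((hGP V p hp).2.1 a b e hab hae hbe) ?_ ?_ ?_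
    · rw [← hf, hfx a haX hav, Matrix.mulVec_zero]
    · rw [← hf, hfx b hbX hbv, Matrix.mulVec_zero]
    · rw [← hf, hfx e heX hev, Matrix.mulVec_zero]
  have hfz : ∀ z, f z = 0 := by
    intro z
    have h1 : Lᵀ *ᵥ f z = 0 := by rw [hf, hR, ev_zero]
    have h2 : L * Lᵀ = 1 := mul_eq_one_comm.1 hL
    have h3 : L *ᵥ (Lᵀ *ᵥ f z) = 0 := by rw [h1, Matrix.mulVec_zero]
    rwa [Matrix.mulVec_mulVec, h2, Matrix.one_mulVec] at h3
  have h4 := hfz (p v)
  simp only [f] at h4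
  rw [← hq v hv] at h4
  have h5 := sub_eq_zero.1 h4
  have h6 : (fun j => D (p v j)) = w := funext hDv
  funext i
  rw [hDq v hv i, h6, Pi.add_apply, ← h5, Pi.add_apply]
  ring

theorem tl (hDER : T_DER) (hRANK : T_RANK) (hGP : T_GP) : T_TL := by
  intro V _ H p q v k hp hq hk
  classical
  by_cases hex : ∃ (X : Set V) (L : Matrix (Fin 3) (Fin 3) ℝ) (t : Vec), v ∈ X ∧ 4 ≤ X.ncard ∧
      Orth L ∧ ∀ x ∈ X, q x = L *ᵥ p x + t
  swap
  · refine ⟨⊤, ?_, ?_⟩
    · rw [finrank_top]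
      simp [Vec]
    · intro X Y hX _ hX4 _ L t L' t' hL _ hqX _
      exact absurd ⟨X, L, t, hX, hX4, hL, hqX⟩ hex
  obtain ⟨X0, L0, t0, hvX0, hX04, hL0, hqX0⟩ := hex
  obtain ⟨a, b, e, haX, hbX, heX, hav, hbv, hev, hab, hae, hbe⟩ := three_of hvX0 hX04
  have hncol : (q b - q a) ⨯₃ (q e - q a) ≠ 0 := by
    have h1 : q b - q a = L0 *ᵥ (p b - p a) := by
      rw [hqX0 b hbX, hqX0 a haX, Matrix.mulVec_sub]
      abel
    have h2 : q e - q a = L0 *ᵥ (p e - p a) := by
      rw [hqX0 e heX, hqX0 a haX, Matrix.mulVec_sub]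
      abel
    rw [h1, h2]
    exact orth_cross hL0 ((hGP V p hp).2.1 a b e hab hae hbe)
  -- derivations
  have hD : ∀ j : Fin 3, ∃ D : Derivation ℚ ℝ ℝ, ∀ y : V × Fin 3,
      D (p y.1 y.2) = if y.1 = v ∧ y.2 = j then 1 else 0 := fun j =>
    hDER (V × Fin 3) (fun y => p y.1 y.2) hp _
  choose Dj hDj using hD
  let DD : Vec → Derivation ℚ ℝ ℝ := fun w => w 0 • Dj 0 + w 1 • Dj 1 + w 2 • Dj 2
  have hDD : ∀ w r, DD w r = w 0 * Dj 0 r + w 1 * Dj 1 r + w 2 * Dj 2 r := by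
    intro w r
    simp only [DD, Derivation.add_apply, Derivation.smul_apply, smul_eq_mul]
  have hDD0 : ∀ w x, x ≠ v → ∀ i, DD w (p x i) = 0 := by
    intro w x hx i
    rw [hDD, hDj 0 (x, i), hDj 1 (x, i), hDj 2 (x, i)]
    simp [hx]
  have hDDv : ∀ w i, DD w (p v i) = w i := by
    intro w i
    rw [hDD, hDj 0 (v, i), hDj 1 (v, i), hDj 2 (v, i)]
    fin_cases i <;> simp
  let Θ : Vec →ₗ[ℝ] (V → Vec) :=
    { toFun := fun w x i => DD w (q x i)
      map_add' := fun w w' => by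
        funext x i
        simp only [hDD, Pi.add_apply]
        ring
      map_smul' := fun r w => by
        funext x i
        simp only [hDD, Pi.smul_apply, smul_eq_mul, RingHom.id_apply]
        ring }
  let N := infMot (delV H v) q
  have hΘN : ∀ w, Θ w ∈ N := by
    intro w x y hxy
    obtain ⟨h1, h2, h3⟩ := hxy
    have h4 := congrArg (DD w) (hq x y h1)
    simp only [dsq, dot3, Pi.sub_apply, map_add, Derivation.leibniz, smul_eq_mul, map_sub,
      hDD0 w x h2, hDD0 w y h3, sub_self, mul_zero, add_zero] at h4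
    change (Θ w x - Θ w y) ⬝ᵥ (q x - q y) = 0
    simp only [dot3, Pi.sub_apply, Θ, LinearMap.coe_mk, AddHom.coe_mk]
    linarith
  let τ : Scr × Vec →ₗ[ℝ] (V → Vec) :=
    { toFun := fun z x => if x = v then z.2 else ev z.1 (q x)
      map_add' := fun z z' => by
        funext x
        simp only [Prod.snd_add, Prod.fst_add, Pi.add_apply, ev_add]
        split_ifs <;> rfl
      map_smul' := fun r z => by
        funext x
        simp only [Prod.smul_snd, Prod.smul_fst, Pi.smul_apply, ev_smul, RingHom.id_apply]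
        split_ifs <;> rfl }
  have hτ : ∀ z x, x ≠ v → τ z x = ev z.1 (q x) := fun z x hx => if_neg hx
  have hτv : ∀ z, τ z v = z.2 := fun z => if_pos rfl
  let T := LinearMap.range τ
  have hTN : T ≤ N := by
    rintro _ ⟨z, rfl⟩ x y ⟨-, h2, h3⟩
    rw [hτ z x h2, hτ z y h3, ev_sub_ev]
    simp only [dot3, cross_eq, Matrix.cons_val]
    ring
  have hTdim : finrank ℝ T = 9 := by
    rw [LinearMap.finrank_range_of_inj]
    · simp [Scr, Vec]
    · rw [← LinearMap.ker_eq_bot, LinearMap.ker_eq_bot']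
      intro z hz
      have h1 : z.1 = 0 := by
        refine scr_three _ (q a) (q b) (q e) hncol ?_ ?_ ?_
        · rw [← hτ z a hav, hz]; rfl
        · rw [← hτ z b hbv, hz]; rfl
        · rw [← hτ z e hev, hz]; rfl
      have h2 : z.2 = 0 := by rw [← hτv z, hz]; rfl
      exact Prod.ext h1 h2
  have hNdim : finrank ℝ N ≤ 9 + k := by
    have h1 : Eqv (delV H v) p q := fun x y hxy => hq x y hxy.1
    rw [(hRANK V (delV H v) p q hp h1).2]
    exact hk
  let ψ := T.mkQ ∘ₗ Θ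
  have hψ1 : finrank ℝ (LinearMap.range ψ) ≤ k := by
    have h1 : LinearMap.range ψ ≤ LinearMap.range (T.mkQ.domRestrict N) := by
      rintro _ ⟨w, rfl⟩
      exact ⟨⟨Θ w, hΘN w⟩, rfl⟩
    have h2 := LinearMap.finrank_range_add_finrank_ker (T.mkQ.domRestrict N)
    have h3 : finrank ℝ (LinearMap.ker (T.mkQ.domRestrict N)) = 9 := by
      have h4 : LinearMap.ker (T.mkQ.domRestrict N) = T.comap N.subtype := by
        ext x
        rw [LinearMap.mem_ker, LinearMap.domRestrict_apply, Submodule.mkQ_apply,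
          Submodule.Quotient.mk_eq_zero, Submodule.mem_comap]
        rfl
      rw [h4, (Submodule.comapSubtypeEquivOfLe hTN).finrank_eq, hTdim]
    have h5 := Submodule.finrank_mono h1
    omega
  have hψ2 := LinearMap.finrank_range_add_finrank_ker ψ
  have h3 : finrank ℝ Vec = 3 := by simp [Vec]
  refine ⟨LinearMap.ker ψ, by omega, ?_⟩
  intro X Y hvX hvY hX4 hY4 L t L' t' hL hL' hqX hqY w hw
  have hwT : Θ w ∈ T := by
    rw [LinearMap.mem_ker, LinearMap.comp_apply, Submodule.mkQ_apply,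
      Submodule.Quotient.mk_eq_zero] at hw
    exact hw
  obtain ⟨z, hz⟩ := hwT
  have hS : ∀ x, x ≠ v → ∀ i, DD w (q x i) = ev z.1 (q x) i := by
    intro x hx i
    have := congrFun (congrFun hz x) i
    rw [hτ z x hx] at this
    exact this.symm
  have k1 := key hGP (DD w) p q hp v w (hDD0 w) (hDDv w) z.1 hS X hvX hX4 L t hL hqX
  have k2 := key hGP (DD w) p q hp v w (hDD0 w) (hDDv w) z.1 hS Y hvY hY4 L' t' hL' hqY
  rw [k1] at k2
  exact add_left_cancel k2

end

end Pool.Agent.H75.MG
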