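import Mathlib
import Pool.Agent.H52.MG.Targets
import Pool.Agent.H52.MG.Basic

set_option autoImplicit false

noncomputable section

open Module
open scoped Matrix

namespace Pool.Agent.H75.MG

open Pool.Agent.H52.MG

section

variable {V : Type} [Fintype V]

/-- screw assignments from coordinates -/
def toS : (V × Fin 2 × Fin 3 → ℝ) ≃ₗ[ℝ] (V → Scr) where
  toFun x v := (fun i => x (v, 0, i), fun i => x (v, 1, i))
  invFun S y := if y.2.1 = 0 then (S y.1).1 y.2.2 else (S y.1).2 y.2.2
  map_add' _ _ := rfl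
  map_smul' _ _ := rfl
  left_inv x := by
    funext ⟨v, j, i⟩
    fin_cases j <;> simp
  right_inv S := by
    funext v
    simp

/-- the equations of the motions -/
def Phi (G : SimpleGraph V) (c : V → V) (p : V → Vec) [DecidableRel G.Adj] [DecidableEq V] :
    (V × Fin 2 × Fin 3 → ℝ) →ₗ[ℝ] (Fin 3 × V × V × Fin 3 → ℝ) where
  toFun x r :=
    if r.1 = 0 then (if c r.2.1 = c r.2.2.1 then x (r.2.1, 0, r.2.2.2) - x (r.2.2.1, 0, r.2.2.2)
      else 0)
    else if r.1 = 1 then
      (if c r.2.1 = c r.2.2.1 then x (r.2.1, 1, r.2.2.2) - x (r.2.2.1, 1, r.2.2.2) else 0)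
    else (if G.Adj r.2.1 r.2.2.1 ∧ c r.2.1 ≠ c r.2.2.1 then
      ev (toS x r.2.1 - toS x r.2.2.1) (p r.2.1) r.2.2.2 else 0)
  map_add' x y := by
    funext r
    simp only [map_add, Pi.add_apply]
    split_ifs
    · ring
    · simp
    · ring
    · simp
    · rw [show toS x r.2.1 + toS y r.2.1 - (toS x r.2.2.1 + toS y r.2.2.1) =
        (toS x r.2.1 - toS x r.2.2.1) + (toS y r.2.1 - toS y r.2.2.1) from by abel, ev_add]
      rfl
    · simp
  map_smul' a x := by
    funext r
    simp only [map_smul, Pi.smul_apply, smul_eq_mul, RingHom.id_apply]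
    split_ifs
    · ring
    · simp
    · ring
    · simp
    · rw [← smul_sub, ev_smul]
      rfl
    · simp

theorem ker_Phi (G : SimpleGraph V) (c : V → V) (p : V → Vec) [DecidableRel G.Adj]
    [DecidableEq V] (x : V × Fin 2 × Fin 3 → ℝ) :
    Phi G c p x = 0 ↔ toS x ∈ Mot G c p := by
  rw [mem_Mot]
  constructor
  · intro h
    have h1 : ∀ u w, c u = c w → toS x u = toS x w := by
      intro u w huw
      refine Prod.ext ?_ ?_
      · funext i
        have := congrFun h (0, u, w, i)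
        simp only [Phi, LinearMap.coe_mk, AddHom.coe_mk, if_true, huw, Pi.zero_apply] at this
        exact sub_eq_zero.1 this
      · funext i
        have := congrFun h (1, u, w, i)
        simp only [Phi, LinearMap.coe_mk, AddHom.coe_mk, if_true, huw, Pi.zero_apply,
          one_ne_zero, if_false] at this
        exact sub_eq_zero.1 this
    refine ⟨h1, fun u w huw => ?_⟩
    by_cases hc : c u = c w
    · rw [h1 u w hc]
    · have : ev (toS x u - toS x w) (p u) = 0 := by
        funext i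
        have := congrFun h (2, u, w, i)
        simp only [Phi, LinearMap.coe_mk, AddHom.coe_mk] at this
        rw [if_neg (by decide), if_neg (by decide), if_pos ⟨huw, hc⟩] at this
        exact this
      rw [ev_sub] at this
      exact sub_eq_zero.1 this
  · rintro ⟨h1, h2⟩
    funext ⟨k, u, w, i⟩
    simp only [Phi, LinearMap.coe_mk, AddHom.coe_mk, Pi.zero_apply]
    split_ifs with h3 h4 h5 h6 h7
    · have := congrArg (fun S : Scr => S.1 i) (h1 u w h4)
      exact sub_eq_zero.2 this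
    · rfl
    · have := congrArg (fun S : Scr => S.2 i) (h1 u w h6)
      exact sub_eq_zero.2 this
    · rfl
    · rw [ev_sub, h2 u w h7.1, sub_self]
      rfl
    · rfl

omit [Fintype V] in
theorem Phi_mem (G : SimpleGraph V) (c : V → V) (p : V → Vec) [DecidableRel G.Adj]
    [DecidableEq V] (F : IntermediateField ℚ ℝ)
    (hF : ∀ u w, G.Adj u w → c u ≠ c w → ∀ i, p u i ∈ F) (x : V × Fin 2 × Fin 3 → ℝ)
    (hx : ∀ y, x y ∈ F) (r : Fin 3 × V × V × Fin 3) : Phi G c p x r ∈ F := by
  simp only [Phi, LinearMap.coe_mk, AddHom.coe_mk]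
  split_ifs with h1 h2 h3 h4 h5
  · exact F.sub_mem (hx _) (hx _)
  · exact F.zero_mem
  · exact F.sub_mem (hx _) (hx _)
  · exact F.zero_mem
  · have hp := hF _ _ h5.1 h5.2
    have hT1 : ∀ i, (toS x r.2.1 - toS x r.2.2.1).1 i ∈ F := fun i =>
      F.sub_mem (hx (r.2.1, 0, i)) (hx (r.2.2.1, 0, i))
    have hT2 : ∀ i, (toS x r.2.1 - toS x r.2.2.1).2 i ∈ F := fun i =>
      F.sub_mem (hx (r.2.1, 1, i)) (hx (r.2.2.1, 1, i))
    generalize toS x r.2.1 - toS x r.2.2.1 = T at hT1 hT2
    generalize r.2.2.2 = i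
    rw [ev, cross_eq, Pi.add_apply]
    refine F.add_mem (hT2 i) ?_
    fin_cases i
    · exact F.sub_mem (F.mul_mem (hT1 _) (hp _)) (F.mul_mem (hT1 _) (hp _))
    · exact F.sub_mem (F.mul_mem (hT1 _) (hp _)) (F.mul_mem (hT1 _) (hp _))
    · exact F.sub_mem (F.mul_mem (hT1 _) (hp _)) (F.mul_mem (hT1 _) (hp _))
  · exact F.zero_mem

end

theorem urk (hRK : T_RK) : T_URK := by
  intro V _ G c p s t A hA
  classical
  have hF : ∀ u w, G.Adj u w → c u ≠ c w → ∀ i, p u i ∈ KA p A := fun u w h1 h2 i =>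
    IntermediateField.subset_adjoin _ _ ⟨u, hA u w h1 h2, i, rfl⟩
  obtain ⟨n, b, hb1, -, hb3⟩ := hRK (KA p A) _ _ (LinearMap.toMatrix' (Phi G c p)) (by
    intro r k
    rw [LinearMap.toMatrix'_apply]
    refine Phi_mem G c p _ hF _ (fun y => ?_) r
    rw [Pi.single_apply]
    split_ifs
    · exact (KA p A).one_mem
    · exact (KA p A).zero_mem)
  have hker : LinearMap.ker (LinearMap.toMatrix' (Phi G c p)).mulVecLin =
      LinearMap.ker (Phi G c p) := by
    congr 1
    exact Matrix.toLin'_toMatrix' (Phi G c p)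
  rw [hker] at hb3
  let D : (V × Fin 2 × Fin 3 → ℝ) →ₗ[ℝ] Scr := (dif s t).comp toS.toLinearMap
  have hU : Urel G c p s t = Submodule.span ℝ (Set.range fun i => D (b i)) := by
    have h1 : Urel G c p s t = (LinearMap.ker (Phi G c p)).map D := by
      apply le_antisymm
      · rintro _ ⟨S, hS, rfl⟩
        refine ⟨toS.symm S, ?_, ?_⟩
        · change _ ∈ LinearMap.ker (Phi G c p)
          rw [LinearMap.mem_ker, ker_Phi, LinearEquiv.apply_symm_apply]
          exact hS
        · change dif s t (toS (toS.symm S)) = _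
          rw [LinearEquiv.apply_symm_apply]
      · rintro _ ⟨x, hx, rfl⟩
        exact ⟨toS x, (ker_Phi G c p x).1 hx, rfl⟩
    rw [h1, ← hb3, Submodule.map_span]
    congr 1
    rw [← Set.range_comp]
    rfl
  obtain ⟨f, hf1, hf2, hf3⟩ := Submodule.exists_fun_fin_finrank_span_eq ℝ
    (Set.range fun i => D (b i))
  refine ⟨_, f, ?_, hf3, ?_⟩
  · intro i j
    obtain ⟨k, hk⟩ := hf1 i
    rw [← hk]
    exact ⟨(KA p A).sub_mem (hb1 k (s, 0, j)) (hb1 k (t, 0, j)),
      (KA p A).sub_mem (hb1 k (s, 1, j)) (hb1 k (t, 1, j))⟩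
  · rw [hf2, hU]

end Pool.Agent.H75.MG
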