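import Mathlib
import Pool.Agent.H52.MG.Targets

set_option autoImplicit false

noncomputable section

open Module MvPolynomial

namespace Pool.Agent.H75.MG

open Pool.Agent.H52.MG

/-- the coordinates of the atoms outside `A` are independent over the field of the atoms of `A` -/
theorem indep_KA {V : Type} [Fintype V] (p : V → Vec) (A : Set V) (hp : Gen p) :
    AlgebraicIndependent (KA p A) (fun y : {y : V × Fin 3 // y.1 ∉ A} => p y.1.1 y.1.2) := by
  have h1 := ((AlgebraicIndependent.iff_adjoin_image {y : V × Fin 3 | y.1 ∈ A}).1 hp).2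
  have hset : {r | ∃ v ∈ A, ∃ i, r = p v i} =
      (fun x : V × Fin 3 => p x.1 x.2) '' {y : V × Fin 3 | y.1 ∈ A} := by
    ext r
    constructor
    · rintro ⟨v, hv, i, rfl⟩
      exact ⟨(v, i), hv, rfl⟩
    · rintro ⟨⟨v, i⟩, hv, rfl⟩
      exact ⟨v, hv, i, rfl⟩
  rw [KA, hset]
  rw [IntermediateField.algebraicIndependent_adjoin_iff]
  exact h1

theorem rg : T_RG := by
  intro V _ p A hp P p0 hA h0 h1
  classical
  let Θ : MvPolynomial (V × Fin 3) (KA p A) →ₐ[KA p A]
      MvPolynomial {y : V × Fin 3 // y.1 ∉ A} (KA p A) :=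
    aeval fun y => if h : y.1 ∈ A then
      C (⟨p y.1 y.2, IntermediateField.subset_adjoin _ _ ⟨y.1, h, y.2, rfl⟩⟩ : KA p A) else X ⟨y, h⟩
  have hΘ : ∀ q : V → Vec, (∀ v ∈ A, q v = p v) →
      aeval (fun x : V × Fin 3 => q x.1 x.2) P =
        aeval (fun y : {y : V × Fin 3 // y.1 ∉ A} => q y.1.1 y.1.2) (Θ P) := by
    intro q hq
    have : (aeval (fun x : V × Fin 3 => q x.1 x.2) : MvPolynomial (V × Fin 3) (KA p A) →ₐ[KA p A] ℝ)
        = (aeval (fun y : {y : V × Fin 3 // y.1 ∉ A} => q y.1.1 y.1.2)).comp Θ := by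
      refine MvPolynomial.algHom_ext fun y => ?_
      rw [aeval_X, AlgHom.comp_apply]
      change _ = aeval _ (aeval _ (X y))
      rw [aeval_X]
      split_ifs with h
      · rw [aeval_C, hq _ h]
        rfl
      · rw [aeval_X]
    exact DFunLike.congr_fun this P
  rw [hΘ p0 hA] at h0
  rw [hΘ p fun _ _ => rfl] at h1
  have h2 : Θ P = 0 := (indep_KA p A hp) (by rw [h1, map_zero])
  rw [h2, map_zero] at h0
  exact h0 rfl

end Pool.Agent.H75.MG
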